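import Mathlib
import Pool.Agent.N852.EL.Pol2

/-!
Project EL: integer points in the bad locus (`CntBS` from `ElimP` and `FewP`).
-/

set_option autoImplicit false
set_option linter.unusedSectionVars false

namespace Pool.Agent.N147.EL

open Matrix Module Filter Topology Function MvPolynomial
open Pool.Agent.N852 (ic)
open Pool.Agent.N852.DD (Bl mem_Bl)
open Pool.Agent.N852.MM
open Pool.Agent.N852.EL

/-! ### Degrees of a deformed family -/

section deg

variable {V : Type} {r : ℕ}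

/-- `f` is homogeneous, and `g - f` has smaller degree in the block `v`. -/
def Hd (v : V) (δ : V → ℕ)
    (fg : MvPolynomial (Σ _ : V, Fin r) ℂ × MvPolynomial (Σ _ : V, Fin r) ℂ) : Prop :=
  MH (κ := fun _ : V => Fin r) fg.1 δ ∧ ∀ β ∈ (fg.2 - fg.1).support,
    ∑ j, β ⟨v, j⟩ < δ v ∧ ∀ t, t ≠ v → ∑ j, β ⟨t, j⟩ = δ t

theorem bdeg (β γ : (Σ _ : V, Fin r) →₀ ℕ) (t : V) :
    ∑ j, (β + γ) ⟨t, j⟩ = ∑ j, β ⟨t, j⟩ + ∑ j, γ ⟨t, j⟩ :=
  bdeg_add (κ := fun _ : V => Fin r) β γ t

theorem Hd_grl (v : V) : GrL (Hd (r := r) v) where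
  zero d := ⟨MH_grl.zero d, by simp⟩
  one := ⟨MH_grl.one, by simp⟩
  add {d f g} hf hg := ⟨MH_grl.add hf.1 hg.1, by
    classical
    intro β hβ
    have e : (f + g).2 - (f + g).1 = (f.2 - f.1) + (g.2 - g.1) := by
      rw [Prod.fst_add, Prod.snd_add]; ring
    rw [e] at hβ
    rcases Finset.mem_union.1 (support_add hβ) with h | h
    · exact hf.2 β h
    · exact hg.2 β h⟩
  neg {d f} hf := ⟨MH_grl.neg hf.1, by
    intro β hβ
    have e : (-f).2 - (-f).1 = -(f.2 - f.1) := by
      rw [Prod.fst_neg, Prod.snd_neg]; ring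
    rw [e, support_neg] at hβ
    exact hf.2 β hβ⟩
  mul {d e f g} hf hg := ⟨MH_grl.mul hf.1 hg.1, by
    classical
    intro β hβ
    have e' : (f * g).2 - (f * g).1 = (f.2 - f.1) * g.1 + (f.1 * (g.2 - g.1) +
        (f.2 - f.1) * (g.2 - g.1)) := by
      rw [Prod.fst_mul, Prod.snd_mul]; ring
    rw [e'] at hβ
    rcases Finset.mem_union.1 (support_add hβ) with h | h
    · obtain ⟨β₁, h1, β₂, h2, rfl⟩ := Finset.mem_add.1 (support_mul _ _ h)
      obtain ⟨h3, h4⟩ := hf.2 β₁ h1
      have h5 := hg.1 β₂ h2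
      refine ⟨?_, fun t ht => ?_⟩
      · rw [bdeg, Pi.add_apply]
        have := h5 v
        simp only at this
        omega
      · rw [bdeg, Pi.add_apply, h4 t ht, ← h5 t]
    · rcases Finset.mem_union.1 (support_add h) with h | h
      · obtain ⟨β₁, h1, β₂, h2, rfl⟩ := Finset.mem_add.1 (support_mul _ _ h)
        obtain ⟨h3, h4⟩ := hg.2 β₂ h2
        have h5 := hf.1 β₁ h1
        refine ⟨?_, fun t ht => ?_⟩
        · rw [bdeg, Pi.add_apply]
          have := h5 v
          simp only at this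
          omega
        · rw [bdeg, Pi.add_apply, h4 t ht, ← h5 t]
      · obtain ⟨β₁, h1, β₂, h2, rfl⟩ := Finset.mem_add.1 (support_mul _ _ h)
        obtain ⟨h3, h4⟩ := hf.2 β₁ h1
        obtain ⟨h5, h6⟩ := hg.2 β₂ h2
        refine ⟨?_, fun t ht => ?_⟩
        · rw [bdeg, Pi.add_apply]
          omega
        · rw [bdeg, Pi.add_apply, h4 t ht, h6 t ht]⟩

end deg

variable {V : Type} [Fintype V] [DecidableEq V] {n : V → ℕ} {k : ℕ} {F : Sys n k} {r : ℕ}

/-- the vectors of the bad locus -/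
noncomputable def xi (A : ∀ v, Fin r → Fin (n v) → ℤ) (S : Finset V) (x : Tup n ℂ) :
    Tup n (MvPolynomial (Σ _ : V, Fin r) ℂ) :=
  mx (iA A) S (fun v l => C (x v l)) fun v j => X ⟨v, j⟩

/-- the vectors of the shifted bad locus -/
noncomputable def xs (A : ∀ v, Fin r → Fin (n v) → ℤ) (S : Finset V) (x : Tup n ℂ) (v : V)
    (w : Fin (n v) → ℂ) : Tup n (MvPolynomial (Σ _ : V, Fin r) ℂ) :=
  update (xi A S x) v fun l => C (w l) + xi A S x v l

theorem Hd_pair (A : ∀ v, Fin r → Fin (n v) → ℤ) (S : Finset V) (x : Tup n ℂ) (v : V)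
    (hv : v ∉ S) (w : Fin (n v) → ℂ) (t : V) (l : Fin (n t)) :
    Hd v (wz S t) (xi A S x t l, xs A S x v w t l) := by
  have h0 : MH (κ := fun _ : V => Fin r) (xi A S x t l) (wz S t) := by
    have h := Hr_grl (V := V) (r := r) (R := ℂ)
    unfold xi mx wz
    split_ifs
    · exact Hr_C _
    · exact lc_grl h (fun j l => h.int _) (fun j => Hr_X t j) l
  refine ⟨h0, ?_⟩
  by_cases ht : t = v
  · subst ht
    unfold xs
    rw [update_self]
    intro β hβ
    have e : C (w l) + xi A S x t l - xi A S x t l = C (w l) := by ring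
    simp only [e] at hβ
    have h1 := MH_C (κ := fun _ : V => Fin r) (w l) β hβ
    have h2 : wz S t = Pi.single t 1 := by unfold wz; rw [if_neg hv]
    rw [h2]
    refine ⟨?_, fun s hs => ?_⟩
    · rw [h1 t, Pi.single_eq_same]
      exact one_pos
    · rw [h1 s, Pi.single_eq_of_ne hs]
      rfl
  · unfold xs
    rw [update_of_ne ht]
    intro β hβ
    simp at hβ

theorem g_deg (A : ∀ v, Fin r → Fin (n v) → ℤ) (S : Finset V) (x : Tup n ℂ) (u v : V)
    (hv : v ∉ S) (w : Fin (n v) → ℂ) (l : Ci F u) :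
    ∀ β ∈ (cp F u (xs A S x v w) l - fC F A u S x l).support,
      ∑ j, β ⟨v, j⟩ < dc F u (wz S) l v ∧ ∀ t, t ≠ v → ∑ j, β ⟨t, j⟩ = dc F u (wz S) l t := by
  have h := (Hd_grl (r := r) v).cp (F := F) (u := u)
    (x := fun t l => (xi A S x t l, xs A S x v w t l)) (w := wz S)
    (fun t l => Hd_pair A S x v hv w t l) l
  have e1 := cp_map (F := F) (u := u) (RingHom.fst (MvPolynomial (Σ _ : V, Fin r) ℂ)
    (MvPolynomial (Σ _ : V, Fin r) ℂ)) (fun t l => (xi A S x t l, xs A S x v w t l)) l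
  have e2 := cp_map (F := F) (u := u) (RingHom.snd (MvPolynomial (Σ _ : V, Fin r) ℂ)
    (MvPolynomial (Σ _ : V, Fin r) ℂ)) (fun t l => (xi A S x t l, xs A S x v w t l)) l
  have h2 := h.2
  have e1' : (cp F u (fun t l => (xi A S x t l, xs A S x v w t l)) l).1 = fC F A u S x l :=
    e1.symm
  have e2' : (cp F u (fun t l => (xi A S x t l, xs A S x v w t l)) l).2 =
      cp F u (xs A S x v w) l := e2.symm
  rw [e1', e2'] at h2
  exact h2

theorem eval_xs (A : ∀ v, Fin r → Fin (n v) → ℤ) (S : Finset V) (x : Tup n ℂ) (u v : V)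
    (hv : v ∉ S) (w : Fin (n v) → ℂ) (y : Fin r → ℂ) (z : V → Fin r → ℂ) (l : Ci F u) :
    eval (fun q => update z v y q.1 q.2) (cp F u (xs A S x v w) l) =
      cp F u (mx (cA A) (insert v S) (update x v fun l => w l + lc (cA A v) y l) z) l := by
  rw [← cp_map]
  congr 1
  funext t l
  have hlc : ∀ (t : V) (l : Fin (n t)) (z' : V → Fin r → ℂ),
      eval (fun q : (Σ _ : V, Fin r) => z' q.1 q.2) (lc (iA A t) (fun j => X ⟨t, j⟩) l) =
        lc (cA A t) (z' t) l := by
    intro t l z'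
    rw [← lc_map]
    congr 1
    · funext j l
      simp [iA, cA]
    · funext j
      simp
  by_cases ht : t = v
  · subst ht
    unfold xs
    rw [update_self, map_add, eval_C]
    unfold xi mx
    rw [if_neg hv, if_pos (Finset.mem_insert_self _ _), update_self, hlc, update_self]
  · unfold xs
    rw [update_of_ne ht]
    unfold xi mx
    by_cases hS : t ∈ S
    · rw [if_pos hS, if_pos (Finset.mem_insert_of_mem hS), update_of_ne ht]
      simp
    · rw [if_neg hS, if_neg (by rw [Finset.mem_insert]; tauto), hlc, update_of_ne ht]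

/-- the number of points in a translate of the linear subspace -/
theorem few (hA : ElimP) (hB : FewP) (F : Sys n k) (A : ∀ v, Fin r → Fin (n v) → ℤ) (u v : V)
    (S : Finset V) (hv : v ∉ S) : ∃ δ₀ : ℕ, ∀ x : Tup n ℂ, ¬ Bu F (cA A) u S x →
      ∀ (w : Fin (n v) → ℂ) (Y : Finset (Fin r → ℂ)),
        (∀ y ∈ Y, Bu F (cA A) u (insert v S) (update x v fun l => w l + lc (cA A v) y l)) →
        Y.card ≤ δ₀ := by
  obtain ⟨Ω, d, -, hd⟩ := hA V V (Ci F u) (fun v => Fin (n v)) (fun _ => Fin r)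
    (fP F A u S) (dc F u (wz S)) (fP_MH A S)
  obtain ⟨δ₀, hδ⟩ := hB V (Ci F u) (fun _ => Fin r) v d
  refine ⟨δ₀, fun x hx w Y hY => ?_⟩
  have hfe : (fun l => MvPolynomial.map (ea fun q : (Σ v, Fin (n v)) => x q.1 q.2)
      (fP F A u S l)) = fC F A u S x := by
    funext l
    exact map_fP A S x l
  have hM : Mon (κ := fun _ : V => Fin r) (fC F A u S x) d := by
    have h := (hd fun q => x q.1 q.2).2
    rw [hfe] at h
    exact h fun hz => hx (zer_fC.1 hz)
  refine hδ (fC F A u S x) (cp F u (xs A S x v w)) (dc F u (wz S)) (fC_MH A S x)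
    (fun l => g_deg A S x u v hv w l) hM Y fun y hy => ?_
  obtain ⟨z, hz, h0⟩ := bu_iff.1 (hY y hy)
  refine ⟨update z v y, update_self _ _ _, fun t ht => ?_, fun l => ?_⟩
  · rw [update_of_ne ht]
    exact hz t
  · rw [eval_xs A S x u v hv w y z l]
    exact h0 l

/-! ### Counting -/

theorem card_Icc_le {B : ℝ} (hB : 1 ≤ B) : ((Finset.Icc ⌈-B⌉ ⌊B⌋).card : ℝ) ≤ 3 * B := by
  rw [Int.card_Icc, Int.ceil_neg]
  have h1 : (0 : ℤ) ≤ ⌊B⌋ + 1 - -⌊B⌋ := by
    have : 0 ≤ ⌊B⌋ := Int.floor_nonneg.2 (by linarith)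
    omega
  have h2 : (((⌊B⌋ + 1 - -⌊B⌋).toNat : ℤ) : ℝ) = ((⌊B⌋ + 1 - -⌊B⌋ : ℤ) : ℝ) := by
    rw [Int.toNat_of_nonneg h1]
  have h3 : (((⌊B⌋ + 1 - -⌊B⌋).toNat : ℕ) : ℝ) = 2 * (⌊B⌋ : ℝ) + 1 := by
    have h4 : (((⌊B⌋ + 1 - -⌊B⌋).toNat : ℕ) : ℝ) = (((⌊B⌋ + 1 - -⌊B⌋).toNat : ℤ) : ℝ) := by
      norm_cast
    rw [h4, h2]
    push_cast
    ring
  rw [h3]
  have := Int.floor_le B
  linarith

/-- the box of the translations -/
noncomputable def Wb (N r : ℕ) (B : ℝ) : Finset (Fin N → ℤ) :=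
  Fintype.piFinset fun l => if (l : ℕ) < r then {0} else Finset.Icc ⌈-B⌉ ⌊B⌋

theorem card_Wb (N r : ℕ) (hr : r ≤ N) {B : ℝ} (hB : 1 ≤ B) :
    ((Wb N r B).card : ℝ) ≤ (3 * B) ^ (N - r) := by
  unfold Wb
  rw [Fintype.card_piFinset, Nat.cast_prod]
  have h1 : ∀ l : Fin N, (((if (l : ℕ) < r then ({0} : Finset ℤ) else
      Finset.Icc ⌈-B⌉ ⌊B⌋).card : ℕ) : ℝ) ≤ if (l : ℕ) < r then 1 else 3 * B := by
    intro l
    split_ifs
    · simp
    · exact card_Icc_le hB
  refine (Finset.prod_le_prod (fun l _ => Nat.cast_nonneg _) fun l _ => h1 l).trans ?_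
  rw [Finset.prod_ite, Finset.prod_const_one, one_mul, Finset.prod_const]
  have h2 : (Finset.univ.filter fun l : Fin N => ¬ (l : ℕ) < r).card = N - r := by
    have h3 := Finset.card_filter_add_card_filter_not (s := (Finset.univ : Finset (Fin N)))
      (fun l : Fin N => (l : ℕ) < r)
    rw [Finset.card_univ, Fintype.card_fin] at h3
    have h4 : (Finset.univ.filter fun l : Fin N => (l : ℕ) < r).card = r := by
      rw [Fin.card_filter_val_lt]
      omega
    omega
  rw [h2]

theorem lc_low {R : Type*} [CommRing R] {N : ℕ} (A : Fin r → Fin N → R) (y : Fin r → R)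
    (l : Fin N) (hl : (l : ℕ) < r) : lc A y l = y ⟨l, hl⟩ := by
  unfold lc gr
  simp only [if_pos hl]
  rw [Finset.sum_eq_single (⟨l, hl⟩ : Fin r)]
  · simp
  · intro j _ hj
    rw [if_neg, mul_zero]
    intro h
    exact hj (Fin.ext h.symm)
  · intro h
    exact absurd (Finset.mem_univ _) h

theorem cntBS (hA : ElimP) (hB : FewP) : CntBS := by
  classical
  intro V _ _ n k F r A hr hrn
  -- the bounds
  have hf : ∀ p : V × V × Finset V, ∃ δ₀ : ℕ, p.2.1 ∉ p.2.2 → ∀ x : Tup n ℂ,
      ¬ Bu F (cA A) p.1 p.2.2 x → ∀ (w : Fin (n p.2.1) → ℂ) (Y : Finset (Fin r → ℂ)),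
        (∀ y ∈ Y, Bu F (cA A) p.1 (insert p.2.1 p.2.2)
          (update x p.2.1 fun l => w l + lc (cA A p.2.1) y l)) → Y.card ≤ δ₀ := by
    rintro ⟨u, v, S⟩
    by_cases hv : v ∈ S
    · exact ⟨0, fun h => absurd hv h⟩
    · obtain ⟨δ₀, h⟩ := few hA hB F A u v S hv
      exact ⟨δ₀, fun _ => h⟩
  choose δ₀ hδ using hf
  obtain ⟨a, ha0, ha⟩ : ∃ a : ℝ, 0 ≤ a ∧ ∀ v j l, |(A v j l : ℝ)| ≤ a := by
    refine ⟨∑ v, ∑ j, ∑ l, |(A v j l : ℝ)|, by positivity, fun v j l => ?_⟩
    have h1 : |(A v j l : ℝ)| ≤ ∑ l, |(A v j l : ℝ)| :=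
      Finset.single_le_sum (f := fun l => |(A v j l : ℝ)|) (fun _ _ => abs_nonneg _)
        (Finset.mem_univ l)
    have h2 : ∑ l, |(A v j l : ℝ)| ≤ ∑ j, ∑ l, |(A v j l : ℝ)| :=
      Finset.single_le_sum (f := fun j => ∑ l, |(A v j l : ℝ)|) (fun _ _ => by positivity)
        (Finset.mem_univ j)
    have h3 : ∑ j, ∑ l, |(A v j l : ℝ)| ≤ ∑ v, ∑ j, ∑ l, |(A v j l : ℝ)| :=
      Finset.single_le_sum (f := fun v => ∑ j, ∑ l, |(A v j l : ℝ)|) (fun _ _ => by positivity)
        (Finset.mem_univ v)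
    linarith
  set c : ℝ := 1 + r * a with hc
  have hc1 : 1 ≤ c := by
    have : 0 ≤ (r : ℝ) * a := by positivity
    linarith
  set Δ : ℕ := ∑ p : V × V × Finset V, δ₀ p with hΔ
  refine ⟨Δ * ∑ v, (3 * c) ^ (n v - r), by positivity, ?_⟩
  intro S v hv x hx X hX
  set Z := (Bl (n v) X).filter fun z => BS F (cA A) (insert v S) (cT (update x v z)) with hZ
  -- coordinates
  let yy : (Fin (n v) → ℤ) → Fin r → ℤ := fun z j => z (Fin.castLE (hrn v) j)
  let ww : (Fin (n v) → ℤ) → Fin (n v) → ℤ := fun z l => z l - lc (A v) (yy z) l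
  have hzw : ∀ z l, z l = ww z l + lc (A v) (yy z) l := fun z l => by simp only [ww]; ring
  have hmaps : ∀ z ∈ Z, ww z ∈ Wb (n v) r (c * X) := by
    intro z hz
    rw [hZ, Finset.mem_filter, mem_Bl (by linarith), Pool.Agent.N852.DD.norm_ic_le (by linarith)] at hz
    unfold Wb
    rw [Fintype.mem_piFinset]
    intro l
    split_ifs with hl
    · rw [Finset.mem_singleton]
      simp only [ww]
      rw [lc_low _ _ l hl]
      simp [yy]
    · have h1 : |(ww z l : ℝ)| ≤ c * X := by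
        simp only [ww]
        have h2 : (lc (A v) (yy z) l : ℤ) = ∑ j, yy z j * A v j l := by
          unfold lc gr
          simp only [if_neg hl]
        rw [h2]
        push_cast
        have h3 : |(z l : ℝ)| ≤ X := hz.1 l
        have h4 : |∑ j, (yy z j : ℝ) * (A v j l : ℝ)| ≤ r * a * X := by
          refine (Finset.abs_sum_le_sum_abs _ _).trans ?_
          have h5 : ∀ j ∈ (Finset.univ : Finset (Fin r)), |(yy z j : ℝ) * (A v j l : ℝ)| ≤ X * a := by
            intro j _
            rw [abs_mul]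
            exact mul_le_mul (hz.1 _) (ha v j l) (abs_nonneg _) (by linarith)
          refine (Finset.sum_le_sum h5).trans (le_of_eq ?_)
          rw [Finset.sum_const, Finset.card_univ, Fintype.card_fin, nsmul_eq_mul]
          ring
        have h6 := abs_sub (z l : ℝ) (∑ j, (yy z j : ℝ) * (A v j l : ℝ))
        calc |(z l : ℝ) - ∑ j, (yy z j : ℝ) * (A v j l : ℝ)| ≤
            |(z l : ℝ)| + |∑ j, (yy z j : ℝ) * (A v j l : ℝ)| := h6
          _ ≤ X + r * a * X := by linarith
          _ = c * X := by rw [hc]; ring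
      rw [Finset.mem_Icc, Int.ceil_le, Int.le_floor]
      exact abs_le.1 h1
  have hfib : ∀ w ∈ Wb (n v) r (c * X), (Z.filter fun z => ww z = w).card ≤ Δ := by
    intro w _
    -- the fibre is the union over `u`
    have hsub : (Z.filter fun z => ww z = w) ⊆
        (Finset.univ : Finset V).biUnion fun u => (Z.filter fun z => ww z = w ∧
          u ∉ insert v S ∧ Bu F (cA A) u (insert v S) (cT (update x v z))) := by
      intro z hz
      rw [Finset.mem_filter] at hz
      have h1 := hz.1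
      rw [hZ, Finset.mem_filter] at h1
      obtain ⟨u, hu, hb⟩ := h1.2
      rw [Finset.mem_biUnion]
      exact ⟨u, Finset.mem_univ _, Finset.mem_filter.2 ⟨hz.1, hz.2, hu, hb⟩⟩
    refine (Finset.card_le_card hsub).trans (Finset.card_biUnion_le.trans ?_)
    have hle : ∀ u ∈ (Finset.univ : Finset V), (Z.filter fun z => ww z = w ∧
          u ∉ insert v S ∧ Bu F (cA A) u (insert v S) (cT (update x v z))).card ≤ δ₀ (u, v, S) := by
      intro u _
      by_cases hu : u ∈ insert v S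
      · have : (Z.filter fun z => ww z = w ∧ u ∉ insert v S ∧
            Bu F (cA A) u (insert v S) (cT (update x v z))) = ∅ := by
          apply Finset.filter_eq_empty_iff.2
          intro z _ h
          exact h.2.1 hu
        rw [this]
        exact Nat.zero_le _
      have huS : u ∉ S := fun h => hu (Finset.mem_insert_of_mem h)
      have hnb : ¬ Bu F (cA A) u S (cT x) := fun h => hx ⟨u, huS, h⟩
      set Zu' := Z.filter fun z => ww z = w ∧
          u ∉ insert v S ∧ Bu F (cA A) u (insert v S) (cT (update x v z)) with hZu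
      let yc : (Fin (n v) → ℤ) → Fin r → ℂ := fun z j => (yy z j : ℂ)
      have hinj : Set.InjOn yc Zu' := by
        intro z hz z' hz' h
        rw [Finset.mem_coe, hZu, Finset.mem_filter] at hz hz'
        have hy : yy z = yy z' := by
          funext j
          have h1 : ((yy z j : ℤ) : ℂ) = ((yy z' j : ℤ) : ℂ) := congrFun h j
          exact_mod_cast h1
        funext l
        rw [hzw z l, hzw z' l, hz.2.1, hz'.2.1, hy]
      rw [← Finset.card_image_of_injOn hinj]
      refine hδ (u, v, S) hv (cT x) hnb (fun l => (w l : ℂ)) _ ?_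
      intro y hy
      obtain ⟨z, hz, rfl⟩ := Finset.mem_image.1 hy
      rw [hZu, Finset.mem_filter] at hz
      have h1 := hz.2.2.2
      have e : cT (update x v z) = update (cT x) v fun l => (w l : ℂ) + lc (cA A v) (yc z) l := by
        funext t l
        by_cases ht : t = v
        · subst ht
          unfold cT
          simp only [update_self]
          have h2 := hzw z l
          rw [hz.2.1] at h2
          have h3 : (lc (cA A t) (yc z) l : ℂ) = ((lc (A t) (yy z) l : ℤ) : ℂ) := by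
            have := lc_map (Int.castRingHom ℂ) (A t) (yy z) l
            simp only [eq_intCast] at this
            exact this
          rw [h3, h2]
          simp
        · unfold cT
          simp only [update_of_ne ht]
      rw [e] at h1
      exact h1
    refine (Finset.sum_le_sum hle).trans ?_
    rw [hΔ]
    have h2 : ∑ u : V, δ₀ (u, v, S) = ∑ p ∈ (Finset.univ : Finset V).image (fun u => (u, v, S)),
        δ₀ p := by
      rw [Finset.sum_image]
      intro u _ u' _ h
      exact (Prod.mk.inj h).1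
    rw [h2]
    exact Finset.sum_le_sum_of_subset (Finset.subset_univ _)
  have hcard := Finset.card_le_mul_card_image_of_maps_to hmaps Δ hfib
  have hcX : 1 ≤ c * X := by nlinarith
  have hcard' : (Z.card : ℝ) ≤ Δ * (3 * (c * X)) ^ (n v - r) := by
    calc (Z.card : ℝ) ≤ ((Δ * (Wb (n v) r (c * X)).card : ℕ) : ℝ) := by exact_mod_cast hcard
      _ = Δ * ((Wb (n v) r (c * X)).card : ℝ) := by push_cast; rfl
      _ ≤ _ := mul_le_mul_of_nonneg_left (card_Wb _ _ (hrn v) hcX) (Nat.cast_nonneg _)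
  refine hcard'.trans ?_
  have e3 : (3 * (c * X)) ^ (n v - r) = (3 * c) ^ (n v - r) * X ^ (n v - r) := by
    rw [← mul_pow]; ring
  rw [e3, ← mul_assoc]
  refine mul_le_mul_of_nonneg_right (mul_le_mul_of_nonneg_left ?_ (Nat.cast_nonneg _))
    (by positivity)
  exact Finset.single_le_sum (f := fun v => (3 * c) ^ (n v - r)) (fun v _ => by positivity)
    (Finset.mem_univ v)

end Pool.Agent.N147.EL
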